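import Pool.Agent.H121.UE.Iface
import Pool.Agent.H168.Y987.Op

/-! The Green functions of the restricted operators. -/

set_option autoImplicit false

open scoped BigOperators InnerProductSpace Topology ENNReal
open Filter MeasureTheory

namespace Pool.Agent.H962.UE

open Pool.Agent.Y662.TR
open Pool.Agent.TH369.AN (Rz rz_eq rz_uniq)
open Pool.Agent.H987.Z (Rs Gr)
open Pool.Agent.H987.Y (Ker Op)
open Pool.Agent.H121.Z987 (HH HH_apply HH_rs)
open Pool.Agent.H121.UE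

variable {ι : Type}

theorem abs_rk_le (t : ι → ι → ℝ) (Ω : Set ι) (x y : ι) : |rk Ω t x y| ≤ |t x y| := by
  classical
  unfold rk
  split_ifs
  · exact le_rfl
  · rw [abs_zero]
    exact abs_nonneg _

theorem rk_of_notMem (t : ι → ι → ℝ) {Ω : Set ι} {x : ι} (hx : x ∉ Ω) (y : ι) :
    rk Ω t x y = 0 := by
  classical
  unfold rk
  exact if_neg fun h => hx h.1

theorem Ker_rk {M : ℝ} {t : ι → ι → ℝ} (ht : Ker M t) (Ω : Set ι) : Ker M (rk Ω t) := by
  classical
  have hs : ∀ x, Summable fun y => |rk Ω t x y| := fun x =>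
    (ht.sm x).of_nonneg_of_le (fun y => abs_nonneg _) (abs_rk_le t Ω x)
  refine ⟨ht.h0, fun x y => ?_, hs, fun x => ?_⟩
  · unfold rk
    rw [ht.sy x y]
    simp only [and_comm]
  · exact ((hs x).tsum_le_tsum (abs_rk_le t Ω x) (ht.sm x)).trans (ht.le x)

theorem zero_of_notMem {M : ℝ} {t : ι → ι → ℝ} (ht : Ker M t) (Ω : Set ι) (lam : ℝ) (ω : ι → ℝ)
    {z : ℂ} {x y : ι} (hz : z.im ≠ 0) (hx : x ∉ Ω) (hy : y ∈ Ω) :
    Rz (HH (Op (rk Ω t)) lam ω) z (dv y) x = 0 := by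
  have hop := Pool.Agent.H168.Y987.op ι (rk Ω t) M (Ker_rk ht Ω)
  have hs : Rs (HH (Op (rk Ω t)) lam ω) := HH_rs _ hop.2.2.1 lam ω
  have heq := rz_eq _ hs.sa z hz (dv y)
  set w := Rz (HH (Op (rk Ω t)) lam ω) z (dv y) with hw
  have h1 : HH (Op (rk Ω t)) lam ω w x - z * w x = dv y x :=
    congrArg (fun u : LL ι => u x) heq
  have hxy : x ≠ y := by
    rintro rfl
    exact hx hy
  rw [HH_apply, (hop.1 w x).2, dv_ne hxy] at h1
  have h2 : ∑' y, ((rk Ω t x y : ℝ) : ℂ) * w y = 0 := by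
    rw [← tsum_zero]
    refine tsum_congr fun v => ?_
    rw [rk_of_notMem t hx, Complex.ofReal_zero, zero_mul]
  rw [h2, zero_add, ← sub_mul] at h1
  rcases mul_eq_zero.1 h1 with h3 | h3
  · exfalso
    apply hz
    have h4 := congrArg Complex.im h3
    rw [Complex.sub_im, Complex.ofReal_im, Complex.zero_im, zero_sub, neg_eq_zero] at h4
    exact h4
  · exact h3

open Classical in
/-- **UE-RESA.** -/
theorem resA : S_resA := by
  intro ι M t ht Ω
  refine ⟨Ker_rk ht Ω, fun lam ω z x y hz hx hy => zero_of_notMem ht Ω lam ω hz hx hy, ?_⟩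
  intro lam ω z w0 v x y hz hw0 hy
  have hop := Pool.Agent.H168.Y987.op ι (rk Ω t) M (Ker_rk ht Ω)
  have hs : Rs (HH (Op (rk Ω t)) lam ω) := HH_rs _ hop.2.2.1 lam ω
  have hs' : Rs (HH (Op (rk Ω t)) lam (Function.update ω w0 v)) := HH_rs _ hop.2.2.1 lam _
  have heq := rz_eq _ hs.sa z hz (dv y)
  have h0 := zero_of_notMem ht Ω lam ω hz hw0 hy
  have h1 : HH (Op (rk Ω t)) lam (Function.update ω w0 v) (Rz (HH (Op (rk Ω t)) lam ω) z (dv y)) =
      HH (Op (rk Ω t)) lam ω (Rz (HH (Op (rk Ω t)) lam ω) z (dv y)) := by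
    refine lp.ext (funext fun u => ?_)
    rw [HH_apply, HH_apply]
    by_cases hu : u = w0
    · rw [hu, h0, mul_zero, mul_zero]
    · rw [Function.update_of_ne hu]
  have h2 := rz_uniq _ hs'.sa z hz (Rz (HH (Op (rk Ω t)) lam ω) z (dv y)) (dv y) (by rw [h1]; exact heq)
  show Rz (HH (Op (rk Ω t)) lam (Function.update ω w0 v)) z (dv y) x =
    Rz (HH (Op (rk Ω t)) lam ω) z (dv y) x
  rw [← h2]

end Pool.Agent.H962.UE
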